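import Pool.Agent.H18.Sq.Quo

/-!
# Poisson means of products of tails of zeta values
-/

set_option autoImplicit false
set_option linter.unusedSectionVars false

open Set

namespace Pool.Agent.H18.Pr

open Pool.Agent.N902.EW Pool.Agent.H18.Sq Pool.Agent.H18.Wd

/-- the Poisson mean -/
noncomputable def Em (x : ℂ) (c : ℕ → ℂ) : ℂ := Complex.exp (-x) * ∑' j : ℕ, x ^ j / j.factorial * c j

/-- bounded sequences -/
def Bd (c : ℕ → ℂ) : Prop := ∃ C : ℝ, ∀ j, ‖c j‖ ≤ C

theorem Bd.summable {c : ℕ → ℂ} (h : Bd c) (x : ℂ) : Summable fun j : ℕ => x ^ j / (j.factorial : ℂ) * c j := by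
  obtain ⟨C, hC⟩ := h
  have hexp : Summable fun j : ℕ => ‖x ^ j / (j.factorial : ℂ)‖ := NormedSpace.norm_expSeries_div_summable x
  refine Summable.of_norm_bounded (hexp.mul_right C) fun j => ?_
  rw [norm_mul]
  exact mul_le_mul_of_nonneg_left (hC j) (norm_nonneg _)

theorem Bd.add {c d : ℕ → ℂ} (hc : Bd c) (hd : Bd d) : Bd fun j => c j + d j := by
  obtain ⟨C, hC⟩ := hc
  obtain ⟨D, hD⟩ := hd
  exact ⟨C + D, fun j => (norm_add_le _ _).trans (add_le_add (hC j) (hD j))⟩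

theorem Bd.const_mul {c : ℕ → ℂ} (hc : Bd c) (a : ℂ) : Bd fun j => a * c j := by
  obtain ⟨C, hC⟩ := hc
  exact ⟨‖a‖ * C, fun j => by rw [norm_mul]; exact mul_le_mul_of_nonneg_left (hC j) (norm_nonneg _)⟩

theorem Bd.const (a : ℂ) : Bd fun _ => a := ⟨‖a‖, fun _ => le_rfl⟩

theorem Bd.mul {c d : ℕ → ℂ} (hc : Bd c) (hd : Bd d) : Bd fun j => c j * d j := by
  obtain ⟨C, hC⟩ := hc
  obtain ⟨D, hD⟩ := hd
  refine ⟨C * D, fun j => ?_⟩
  rw [norm_mul]
  exact mul_le_mul (hC j) (hD j) (norm_nonneg _) ((norm_nonneg _).trans (hC j))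

theorem Em_add {c d : ℕ → ℂ} (hc : Bd c) (hd : Bd d) (x : ℂ) : Em x (fun j => c j + d j) = Em x c + Em x d := by
  rw [Em, Em, Em, ← mul_add, ← (hc.summable x).tsum_add (hd.summable x)]
  congr 1
  exact tsum_congr fun j => by ring

theorem Em_mul (a : ℂ) (c : ℕ → ℂ) (x : ℂ) : Em x (fun j => a * c j) = a * Em x c := by
  rw [Em, Em]
  have : ∀ j : ℕ, x ^ j / (j.factorial : ℂ) * (a * c j) = a * (x ^ j / (j.factorial : ℂ) * c j) := fun j => by ring
  simp only [this]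
  rw [tsum_mul_left]
  ring

theorem Em_const (a : ℂ) (x : ℂ) : Em x (fun _ => a) = a := by
  have h := Em_mul a (fun _ => 1) x
  simp only [mul_one] at h
  rw [h, Em]
  simp only [mul_one]
  have : (∑' j : ℕ, x ^ j / (j.factorial : ℂ)) = Complex.exp x := by
    rw [Complex.exp_eq_exp_ℂ, NormedSpace.exp_eq_tsum_div]
  rw [this, ← Complex.exp_add, neg_add_cancel, Complex.exp_zero, mul_one]

theorem Em_zero (c : ℕ → ℂ) : Em 0 c = c 0 := by
  rw [Em, tsum_eq_single 0]
  · simp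
  · intro j hj
    rw [zero_pow hj]
    simp

/-- the harmonic sums -/
noncomputable def hm (k j : ℕ) : ℂ := ∑ i ∈ Finset.range j, 1 / ((i : ℂ) + 1) ^ k

/-- the tails -/
noncomputable def tl (k j : ℕ) : ℂ := ∑' i : ℕ, 1 / ((i : ℂ) + j + 1) ^ k

theorem tl_eq {k : ℕ} (hk : 2 ≤ k) (j : ℕ) : tl k j = riemannZeta k - hm k j := by
  have hs := summ_zeta hk
  rw [tl, hm, zeta_eq hk, ← hs.sum_add_tsum_nat_add j, add_sub_cancel_left]
  exact tsum_congr fun i => by push_cast; rfl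

theorem bd_hm {k : ℕ} (hk : 2 ≤ k) : Bd (hm k) := by
  have hn : Summable fun i : ℕ => ‖(1 : ℂ) / ((i : ℂ) + 1) ^ k‖ := (summ_zeta hk).norm
  exact ⟨∑' i : ℕ, ‖(1 : ℂ) / ((i : ℂ) + 1) ^ k‖, fun j =>
    (norm_sum_le _ _).trans (hn.sum_le_tsum _ fun _ _ => norm_nonneg _)⟩

theorem bd_hh {k l : ℕ} (hk : 2 ≤ k) (hl : 2 ≤ l) : Bd (hh ℂ k l) := by
  obtain ⟨Z, hZ⟩ := bd_hm hk
  have hn : Summable fun i : ℕ => ‖(1 : ℂ) / ((i : ℂ) + 1) ^ l‖ := (summ_zeta hl).norm
  have hZ0 : 0 ≤ Z := (norm_nonneg _).trans (hZ 0)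
  refine ⟨Z * ∑' i : ℕ, ‖(1 : ℂ) / ((i : ℂ) + 1) ^ l‖, fun j => ?_⟩
  refine (norm_sum_le _ _).trans ?_
  have h1 : ∀ b ∈ Finset.range j, ‖(∑ a ∈ Finset.range b, 1 / ((a : ℂ) + 1) ^ k) / ((b : ℂ) + 1) ^ l‖ ≤
      Z * ‖(1 : ℂ) / ((b : ℂ) + 1) ^ l‖ := by
    intro b _
    rw [div_eq_mul_one_div, norm_mul]
    exact mul_le_mul_of_nonneg_right (hZ b) (norm_nonneg _)
  refine (Finset.sum_le_sum h1).trans ?_
  rw [← Finset.mul_sum]
  exact mul_le_mul_of_nonneg_left (hn.sum_le_tsum _ fun _ _ => norm_nonneg _) hZ0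

theorem prod_hm (k l j : ℕ) : hm k j * hm l j = hh ℂ k l j + hh ℂ l k j + hm (k + l) j := by
  induction j with
  | zero => simp [hh, hm]
  | succ j ih =>
    have h1 : ∀ k l : ℕ, hh ℂ k l (j + 1) = hh ℂ k l j + hm k j / ((j : ℂ) + 1) ^ l := by
      intro k l
      rw [hh, Finset.sum_range_succ, ← hh, ← hm]
    have h2 : ∀ k : ℕ, hm k (j + 1) = hm k j + 1 / ((j : ℂ) + 1) ^ k := by
      intro k
      rw [hm, Finset.sum_range_succ, ← hm]
    rw [h1, h1, h2, h2, h2, pow_add]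
    have h3 : ((j : ℂ) + 1) ≠ 0 := by exact_mod_cast Nat.succ_ne_zero j
    have h4 : (hm k j + 1 / ((j : ℂ) + 1) ^ k) * (hm l j + 1 / ((j : ℂ) + 1) ^ l) =
        hm k j * hm l j + hm k j / ((j : ℂ) + 1) ^ l + hm l j / ((j : ℂ) + 1) ^ k +
          1 / (((j : ℂ) + 1) ^ k * ((j : ℂ) + 1) ^ l) := by
      field_simp
      ring
    rw [h4, ih]
    ring

/-- the means of the products of two harmonic sums -/
noncomputable def PW (k l : ℕ) (x : ℂ) : ℂ := Em x fun j => hm k j * hm l j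

/-- the means of the products of two tails -/
noncomputable def PM (k l : ℕ) (x : ℂ) : ℂ := Em x fun j => tl k j * tl l j

theorem PW_eq {k l : ℕ} (hk : 2 ≤ k) (hl : 2 ≤ l) (x : ℂ) : PW k l x = PD k l x + PD l k x + PS (k + l) x := by
  have h1 : PW k l x = Em x fun j => (hh ℂ k l j + hh ℂ l k j) + hm (k + l) j := by
    rw [PW]
    congr 1
    funext j
    exact prod_hm k l j
  rw [h1, Em_add ((bd_hh hk hl).add (bd_hh hl hk)) (bd_hm (by omega)), Em_add (bd_hh hk hl) (bd_hh hl hk)]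
  rfl

theorem PM_eq {k l : ℕ} (hk : 2 ≤ k) (hl : 2 ≤ l) (x : ℂ) : PM k l x =
    riemannZeta k * riemannZeta l - riemannZeta k * PS l x - riemannZeta l * PS k x + PW k l x := by
  have h1 : PM k l x = Em x fun j => ((riemannZeta k * riemannZeta l + (-riemannZeta k) * hm l j) +
      (-riemannZeta l) * hm k j) + hm k j * hm l j := by
    rw [PM]
    congr 1
    funext j
    rw [tl_eq hk, tl_eq hl]
    ring
  rw [h1, Em_add (((Bd.const _).add ((bd_hm hl).const_mul _)).add ((bd_hm hk).const_mul _)) ((bd_hm hk).mul (bd_hm hl)),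
    Em_add ((Bd.const _).add ((bd_hm hl).const_mul _)) ((bd_hm hk).const_mul _),
    Em_add (Bd.const _) ((bd_hm hl).const_mul _), Em_const, Em_mul, Em_mul]
  have h2 : Em x (hm l) = PS l x := rfl
  have h3 : Em x (hm k) = PS k x := rfl
  have h4 : (Em x fun j => hm k j * hm l j) = PW k l x := rfl
  rw [h2, h3, h4]
  ring

/-! ### Algebraic independence -/

section

variable {F : Type*} {E : Type*} [Field F] [Field E] [Algebra F E]

theorem ai_tri {ι : Type*} {s t : ι → E} (hs : AlgebraicIndependent F s)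
    (hD : ∀ i, ∃ D : Finset ι, i ∈ D ∧ ∀ j ∈ D, s j ∈ clf F (t '' (D : Set ι))) : AlgebraicIndependent F t := by
  classical
  refine algebraicIndependent_of_finite_type fun T hT => ?_
  have h1 := rk_ge (Y := (∅ : Set E)) hs (fun i => by
    obtain ⟨D, hi, hD⟩ := hD i
    exact ⟨D, hi, fun j hj => by rw [empty_union]; exact hD j hj⟩) hT.toFinset
  rw [empty_union] at h1
  by_contra hcon
  have := hT.fintype
  obtain ⟨I, hI, hI'⟩ := exists_small (fun i : T => t i) hcon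
  have h2 : (Ma F).eRk (t '' ((hT.toFinset : Finset ι) : Set ι)) ≤ (Ma F).eRk (I : Set E) := by
    rw [← Matroid.eRk_closure_eq (Ma F) (I : Set E)]
    refine Matroid.eRk_mono _ ?_
    rintro _ ⟨i, hi, rfl⟩
    exact mem_clf'.1 (hI' ⟨i, by simpa using hi⟩)
  have h3 : (Ma F).eRk (I : Set E) ≤ (I.card : ℕ∞) := by
    refine (Matroid.eRk_le_encard _ _).trans ?_
    rw [encard_coe_eq_coe_finsetCard]
  have h4 : hT.toFinset.card ≤ I.card := by exact_mod_cast h1.trans (h2.trans h3)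
  have h5 : hT.toFinset.card = Fintype.card T := by
    rw [← Set.ncard_eq_toFinset_card T hT, Set.ncard_eq_toFinset_card', Set.toFinset_card]
  omega

end

/-- the indices `2 ≤ k ≤ l` and the points -/
abbrev J2 (X : Set ℂ) : Type := {p : (ℕ × ℕ) × ℂ // 2 ≤ p.1.1 ∧ p.1.1 ≤ p.1.2 ∧ p.2 ∈ X}

theorem ai_PW (X : Set ℂ) (hX : ∀ x ∈ X, IsAlgebraic ℚ x ∧ ∀ y ∈ X, x + y ≠ 0) :
    AlgebraicIndependent KK (Sum.elim (fun p : J2 X => PW p.1.1.1 p.1.1.2 p.1.2) (fun p : I1 X => PS p.1.1 p.1.2)) := by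
  classical
  have h0 := ai_PD X hX
  let t : I2 X ⊕ I1 X → ℂ := Sum.elim (fun p => if p.1.1.1 ≤ p.1.1.2 then PW p.1.1.1 p.1.1.2 p.1.2 else PD p.1.1.1 p.1.1.2 p.1.2)
    (fun p : I1 X => PS p.1.1 p.1.2)
  have h2' : ∀ S : Set ℂ, (2 : ℂ) ∈ clf KK S := fun S => by exact_mod_cast natCast_mem (clf KK S) 2
  have h1 : AlgebraicIndependent KK t := by
    refine ai_tri h0 ?_
    rintro (⟨⟨⟨k, l⟩, x⟩, hk, hl, hx⟩ | q)
    · have hk' : 2 ≤ k := hk
      have hl' : 2 ≤ l := hl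
      let i1 : I2 X ⊕ I1 X := Sum.inl ⟨((k, l), x), hk, hl, hx⟩
      let i2 : I2 X ⊕ I1 X := Sum.inl ⟨((l, k), x), hl, hk, hx⟩
      let i3 : I2 X ⊕ I1 X := Sum.inr ⟨(k + l, x), by show 2 ≤ k + l; omega, hx⟩
      refine ⟨{i1, i2, i3}, by simp [i1], fun j hj => ?_⟩
      set D : Finset (I2 X ⊕ I1 X) := {i1, i2, i3} with hDdef
      have m1 : t i1 ∈ clf KK (t '' (D : Set _)) := subset_clf _ ⟨i1, by simp [D], rfl⟩
      have m2 : t i2 ∈ clf KK (t '' (D : Set _)) := subset_clf _ ⟨i2, by simp [D], rfl⟩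
      have m3 : PS (k + l) x ∈ clf KK (t '' (D : Set _)) := subset_clf _ ⟨i3, by simp [D], rfl⟩
      have t1 : t i1 = if k ≤ l then PW k l x else PD k l x := rfl
      have t2 : t i2 = if l ≤ k then PW l k x else PD l k x := rfl
      have e1 := PW_eq hk' hl' x
      have e2 := PW_eq hl' hk' x
      rw [add_comm l k] at e2
      have key : PD k l x ∈ clf KK (t '' (D : Set _)) ∧ PD l k x ∈ clf KK (t '' (D : Set _)) := by
        rcases lt_trichotomy k l with h | h | h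
        · rw [if_pos h.le] at t1
          rw [if_neg (by omega)] at t2
          rw [t1] at m1
          rw [t2] at m2
          refine ⟨?_, m2⟩
          have h5 : PD k l x = PW k l x - PD l k x - PS (k + l) x := by rw [e1]; ring
          rw [h5]
          exact (clf KK _).sub_mem ((clf KK _).sub_mem m1 m2) m3
        · subst h
          rw [if_pos le_rfl] at t1
          rw [t1] at m1
          have h5 : PD k k x = (PW k k x - PS (k + k) x) / 2 := by rw [e1]; ring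
          have h6 : PD k k x ∈ clf KK (t '' (D : Set _)) := by
            rw [h5]
            exact (clf KK _).div_mem ((clf KK _).sub_mem m1 m3) (h2' _)
          exact ⟨h6, h6⟩
        · rw [if_neg (by omega)] at t1
          rw [if_pos h.le] at t2
          rw [t1] at m1
          rw [t2] at m2
          refine ⟨m1, ?_⟩
          have h5 : PD l k x = PW l k x - PD k l x - PS (k + l) x := by rw [e2]; ring
          rw [h5]
          exact (clf KK _).sub_mem ((clf KK _).sub_mem m2 m1) m3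
      have hj' : j = i1 ∨ j = i2 ∨ j = i3 := by simpa [D] using hj
      rcases hj' with rfl | rfl | rfl
      · exact key.1
      · exact key.2
      · exact m3
    · exact ⟨{Sum.inr q}, by simp, fun j hj => by
        rw [Finset.mem_singleton] at hj
        subst hj
        exact subset_clf _ ⟨Sum.inr q, by simp, rfl⟩⟩
  let g : J2 X ⊕ I1 X → I2 X ⊕ I1 X := Sum.map (fun p => ⟨p.1, p.2.1, p.2.1.trans p.2.2.1, p.2.2.2⟩) id
  have hg : Function.Injective g := by
    refine Function.Injective.sumMap ?_ Function.injective_id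
    intro p q h
    exact Subtype.ext (congrArg (fun z => z.1) h)
  have h3 := h1.comp g hg
  have h4 : t ∘ g = Sum.elim (fun p : J2 X => PW p.1.1.1 p.1.1.2 p.1.2) (fun p : I1 X => PS p.1.1 p.1.2) := by
    funext p
    rcases p with p | p
    · show (if p.1.1.1 ≤ p.1.1.2 then PW p.1.1.1 p.1.1.2 p.1.2 else PD p.1.1.1 p.1.1.2 p.1.2) = _
      rw [if_pos p.2.2.1]
      rfl
    · rfl
  rw [h4] at h3
  exact h3

end Pool.Agent.H18.Pr
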