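import Pool.Agent.H18.Pr.Mean

/-!
# The exceptional points of the means of the products of tails
-/

set_option autoImplicit false
set_option linter.unusedSectionVars false

open Set

namespace Pool.Agent.H18.Pr

open Pool.Agent.N902.EW Pool.Agent.H18.Sq Pool.Agent.H18.Wd

/-- the indices of the family of `M` -/
abbrev Ix (M : Set ℕ) : Type := M ⊕ {p : ℕ × ℕ // p.1 ∈ M ∧ p.1 ≤ p.2 ∧ p.2 ∈ M}

/-- the means of the tails and of the products of two tails -/
noncomputable def fam (M : Set ℕ) (x : ℂ) : Ix M → ℂ := Sum.elim (fun k => PT k x) (fun p => PM p.1.1 p.1.2 x)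

/-- the means of the harmonic sums and of the products of two harmonic sums -/
noncomputable def fas (M : Set ℕ) (x : ℂ) : Ix M → ℂ := Sum.elim (fun k => PS k x) (fun p => PW p.1.1 p.1.2 x)

theorem ai_fas {X : Set ℂ} (hX : ∀ x ∈ X, IsAlgebraic ℚ x ∧ ∀ y ∈ X, x + y ≠ 0) {M : Set ℕ} (hM : ∀ k ∈ M, 2 ≤ k) :
    AlgebraicIndependent KK (fun q : X × Ix M => fas M q.1 q.2) := by
  let g : X × Ix M → J2 X ⊕ I1 X := fun q => Sum.elim
    (fun k => Sum.inr ⟨(k.1, q.1.1), hM _ k.2, q.1.2⟩)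
    (fun p => Sum.inl ⟨((p.1.1, p.1.2), q.1.1), hM _ p.2.1, p.2.2.1, q.1.2⟩) q.2
  have hg : Function.Injective g := by
    rintro ⟨x, k | p⟩ ⟨x', k' | p'⟩ h
    · have h1 := Sum.inr_injective h
      have h2 : (k.1, x.1) = (k'.1, x'.1) := congrArg (fun z => z.1) h1
      obtain ⟨h3, h4⟩ := (Prod.mk.injEq _ _ _ _).mp h2
      exact Prod.ext (Subtype.ext h4) (congrArg Sum.inl (Subtype.ext h3))
    · exact absurd h (by simp [g])
    · exact absurd h (by simp [g])
    · have h1 := Sum.inl_injective h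
      have h2 : ((p.1.1, p.1.2), x.1) = ((p'.1.1, p'.1.2), x'.1) := congrArg (fun z => z.1) h1
      obtain ⟨h3, h4⟩ := (Prod.mk.injEq _ _ _ _).mp h2
      obtain ⟨h5, h6⟩ := (Prod.mk.injEq _ _ _ _).mp h3
      exact Prod.ext (Subtype.ext h4) (congrArg Sum.inr (Subtype.ext (Prod.ext h5 h6)))
  have h1 := (ai_PW X hX).comp g hg
  have h2 : Sum.elim (fun p : J2 X => PW p.1.1.1 p.1.1.2 p.1.2) (fun p : I1 X => PS p.1.1 p.1.2) ∘ g =
      fun q : X × Ix M => fas M q.1 q.2 := by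
    funext q
    rcases q with ⟨x, k | p⟩ <;> rfl
  rw [h2] at h1
  exact h1

/-- the exceptional points over a field with few generators -/
theorem exc_fam {X : Set ℂ} (hX : ∀ x ∈ X, IsAlgebraic ℚ x ∧ ∀ y ∈ X, x + y ≠ 0) {M : Set ℕ} (hM : ∀ k ∈ M, 2 ≤ k)
    {r : ℕ} {y : Fin r → ℂ} (hz : ∀ k ∈ M, riemannZeta k ∈ clf KK (range y)) :
    {x | x ∈ X ∧ ¬ AlgebraicIndependent (IntermediateField.adjoin KK (range y)) (fam M x)}.encard ≤ (r : ℕ∞) := by
  classical
  have h0 := exceptions (s := fun q : X × Ix M => fas M q.1 q.2) (ai_fas hX hM) y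
    (fun (x : X) (p : Ix M) => fas M x p) (fun x p => subset_clf _ (mem_insert _ _))
  refine le_trans ?_ h0
  rw [← Subtype.val_injective.encard_image]
  refine encard_le_encard ?_
  rintro x ⟨hx, hx'⟩
  refine ⟨⟨x, hx⟩, ?_, rfl⟩
  intro hs
  refine hx' ?_
  set L := IntermediateField.adjoin KK (range y)
  have hs' : AlgebraicIndependent L (fun p : Ix M => fas M x p) := hs
  have hz' : ∀ k ∈ M, IsAlgebraic L (riemannZeta k) := fun k hk => mem_clf.1 (hz k hk)
  refine ai_tri hs' ?_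
  -- the means of the harmonic sums
  have hPS : ∀ (D : Finset (Ix M)) (k : M), Sum.inl k ∈ D → PS k x ∈ clf L (fam M x '' (D : Set (Ix M))) := by
    intro D k hk
    have h1 : PS k x = riemannZeta (k : ℕ) - PT k x := by rw [zeta_split (hM _ k.2) x]; ring
    rw [h1]
    exact (clf L _).sub_mem (clf_of_alg (hz' _ k.2)) (subset_clf _ ⟨Sum.inl k, hk, rfl⟩)
  rintro (k | p)
  · refine ⟨{Sum.inl k}, by simp, fun j hj => ?_⟩
    rw [Finset.mem_singleton] at hj
    subst hj
    exact hPS _ k (by simp)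
  · let k : M := ⟨p.1.1, p.2.1⟩
    let l : M := ⟨p.1.2, p.2.2.2⟩
    refine ⟨{Sum.inr p, Sum.inl k, Sum.inl l}, by simp, fun j hj => ?_⟩
    set D : Finset (Ix M) := {Sum.inr p, Sum.inl k, Sum.inl l} with hD
    have hk : PS k x ∈ clf L (fam M x '' (D : Set (Ix M))) := hPS D k (by simp [D])
    have hl : PS l x ∈ clf L (fam M x '' (D : Set (Ix M))) := hPS D l (by simp [D])
    have hj' : j = Sum.inr p ∨ j = Sum.inl k ∨ j = Sum.inl l := by simpa [D] using hj
    rcases hj' with rfl | rfl | rfl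
    · show PW k l x ∈ _
      have h1 : PW k l x = PM k l x - riemannZeta (k : ℕ) * riemannZeta (l : ℕ) + riemannZeta (k : ℕ) * PS l x +
          riemannZeta (l : ℕ) * PS k x := by
        rw [PM_eq (hM _ k.2) (hM _ l.2) x]; ring
      have hzk : riemannZeta (k : ℕ) ∈ clf L (fam M x '' (D : Set (Ix M))) := clf_of_alg (hz' _ k.2)
      have hzl : riemannZeta (l : ℕ) ∈ clf L (fam M x '' (D : Set (Ix M))) := clf_of_alg (hz' _ l.2)
      rw [h1]
      exact (clf L _).add_mem ((clf L _).add_mem ((clf L _).sub_mem (subset_clf _ ⟨Sum.inr p, by simp [D], rfl⟩)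
        ((clf L _).mul_mem hzk hzl)) ((clf L _).mul_mem hzk hl)) ((clf L _).mul_mem hzl hk)
    · exact hk
    · exact hl

/-- the exceptional points over the base field -/
theorem exc_fin {X : Set ℂ} (hX : ∀ x ∈ X, IsAlgebraic ℚ x ∧ ∀ y ∈ X, x + y ≠ 0) {M : Set ℕ} (hM : ∀ k ∈ M, 2 ≤ k)
    (I : Finset ℂ) (hz : ∀ k ∈ M, riemannZeta k ∈ clf KK (I : Set ℂ)) :
    {x | x ∈ X ∧ ¬ AlgebraicIndependent KK (fam M x)}.encard ≤ (I.card : ℕ∞) := by
  let y : Fin I.card → ℂ := fun i => (I.equivFin.symm i : ℂ)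
  have hy : range y = (I : Set ℂ) := by
    ext z
    constructor
    · rintro ⟨i, rfl⟩
      exact (I.equivFin.symm i).2
    · intro hz
      exact ⟨I.equivFin ⟨z, hz⟩, by simp [y]⟩
  refine le_trans (encard_le_encard ?_) (exc_fam (X := X) (M := M) (y := y) hX hM (by rw [hy]; exact hz))
  rintro x ⟨hx, hx'⟩
  refine ⟨hx, fun h => hx' ?_⟩
  exact h.restrictScalars (R := KK) (algebraMap KK (IntermediateField.adjoin KK (range y))).injective

/-- the constants: `π` (index `0`) and `ζ(k)` -/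
noncomputable def cst (k : ℕ) : ℂ := if k = 0 then (Real.pi : ℂ) else riemannZeta k

/-- the indices of the constants -/
abbrev Cx (m : ℕ) : Type := {k : ℕ // (k = 0 ∨ 3 ≤ k ∧ Odd k) ∧ k ≤ m}

theorem cx_finite (m : ℕ) : Finite (Cx m) :=
  Finite.of_injective (fun k : Cx m => (⟨k.1, Nat.lt_succ_of_le k.2.2⟩ : Fin (m + 1))) fun a b h =>
    Subtype.ext (congrArg (fun z => z.1) h)

theorem cx_card {m : ℕ} (hm : 1 ≤ m) [Fintype (Cx m)] : Fintype.card (Cx m) ≤ (m + 1) / 2 := by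
  classical
  let G : Finset ℕ := (Finset.range ((m + 1) / 2)).image fun j => if j = 0 then 0 else 2 * j + 1
  have h1 : Fintype.card (Cx m) ≤ G.card := by
    rw [← Finset.card_univ]
    refine Finset.card_le_card_of_injOn (fun k : Cx m => k.1) (fun k _ => ?_) (fun _ _ _ _ h => Subtype.ext h)
    refine Finset.mem_coe.2 (Finset.mem_image.2 ?_)
    obtain ⟨h, hm'⟩ := k.2
    rcases h with h | ⟨h, h'⟩
    · exact ⟨0, Finset.mem_range.2 (by omega), by simp only [if_pos]; exact h.symm⟩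
    · obtain ⟨j, hj⟩ := h'
      refine ⟨j, Finset.mem_range.2 (by omega), ?_⟩
      rw [if_neg (by omega)]
      exact hj.symm
  refine h1.trans (Finset.card_image_le.trans ?_)
  rw [Finset.card_range]

theorem zeta_cst {m k : ℕ} (hk : 2 ≤ k) (hkm : k ≤ m) {S : Set ℂ} (hS : ∀ c : Cx m, cst c.1 ∈ clf KK S) :
    riemannZeta k ∈ clf KK S := by
  by_cases h : Even k
  · have h1 : (Real.pi : ℂ) ∈ clf KK S := by
      have := hS ⟨0, Or.inl rfl, Nat.zero_le _⟩
      rwa [cst, if_pos rfl] at this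
    obtain ⟨n, hn⟩ := h
    have h2 : k = 2 * n := by omega
    rw [h2]
    exact zeta_even_mem h1 (by omega)
  · have h2 := Nat.not_even_iff_odd.1 h
    have h3 : 3 ≤ k := by obtain ⟨j, hj⟩ := h2; omega
    have h4 : cst k = riemannZeta k := if_neg (by omega)
    rw [← h4]
    exact hS ⟨k, Or.inr ⟨h3, h2⟩, hkm⟩

/-- the set of the indices -/
def Mm (m : ℕ) : Set ℕ := {k | 2 ≤ k ∧ k ≤ m}

/-- the exceptional points -/
def excs (X : Set ℂ) (m : ℕ) : Set ℂ :=
  {x | (x ∈ X ∧ ¬ AlgebraicIndependent KK (fam (Mm m) x)) ∨ (x = 0 ∧ ¬ AlgebraicIndependent KK (fun k : Cx m => cst k.1))}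

theorem excs_le {X : Set ℂ} (hX : ∀ x ∈ X, IsAlgebraic ℚ x ∧ ∀ y ∈ X, x + y ≠ 0) {m : ℕ} (hm : 1 ≤ m) :
    (excs X m).encard ≤ (((m + 1) / 2 : ℕ) : ℕ∞) := by
  classical
  have := cx_finite m
  have := Fintype.ofFinite (Cx m)
  have hcard := cx_card hm
  by_cases hai : AlgebraicIndependent KK (fun k : Cx m => cst k.1)
  · have h1 := exc_fin hX (M := Mm m) (fun k hk => hk.1) (Finset.univ.image fun k : Cx m => cst k.1) (fun k hk =>
      zeta_cst hk.1 hk.2 fun c => subset_clf _ (by simp only [Finset.coe_image, Finset.coe_univ, image_univ]; exact ⟨c, rfl⟩))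
    refine le_trans (encard_le_encard ?_) (h1.trans ?_)
    · rintro x (h | ⟨-, h⟩)
      · exact h
      · exact absurd hai h
    · have h2 : (Finset.univ.image fun k : Cx m => cst k.1).card ≤ (m + 1) / 2 := by
        refine Finset.card_image_le.trans ?_
        rwa [Finset.card_univ]
      exact_mod_cast h2
  · obtain ⟨I, hI, hI'⟩ := exists_small (fun k : Cx m => cst k.1) hai
    have h1 := exc_fin hX (M := Mm m) (fun k hk => hk.1) I (fun k hk => zeta_cst hk.1 hk.2 hI')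
    have h2 : excs X m ⊆ insert 0 {x | x ∈ X ∧ ¬ AlgebraicIndependent KK (fam (Mm m) x)} := by
      rintro x (h | ⟨h, -⟩)
      · exact mem_insert_of_mem _ h
      · rw [h]; exact mem_insert _ _
    refine (encard_le_encard h2).trans ((encard_insert_le _ _).trans ?_)
    refine (add_le_add h1 le_rfl).trans ?_
    have h3 : I.card + 1 ≤ (m + 1) / 2 := hI.trans hcard
    exact_mod_cast h3

end Pool.Agent.H18.Pr
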