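import Pool.Agent.H18.Pr.Exc

/-!
# Quotients of the first and second moments of the tails of `ζ(2)` and `ζ(3)`
-/

set_option autoImplicit false
set_option linter.unusedSectionVars false

open Set

namespace Pool.Agent.H18.Pr

open Pool.Agent.N902.EW Pool.Agent.H18.Sq Pool.Agent.H18.Wd

/-- `T_2` and the four quotients -/
noncomputable def v5 (x : ℂ) : Fin 5 → ℂ :=
  ![PT 2 x, PT 3 x ^ 2 / PT 2 x ^ 3, PM 2 2 x / PT 2 x ^ 2, PM 2 3 x / (PT 2 x * PT 3 x), PM 3 3 x / PT 3 x ^ 2]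

/-- the means of the harmonic sums -/
noncomputable def s5 (x : ℂ) : Fin 5 → ℂ := ![PS 2 x, PS 3 x, PW 2 2 x, PW 2 3 x, PW 3 3 x]

theorem s5_mem {L : Subfield ℂ} {x : ℂ} (hT2 : PT 2 x ≠ 0) (hT3 : PT 3 x ≠ 0) (hroot : ∀ z : ℂ, z ^ 2 ∈ L → z ∈ L)
    (hz2 : riemannZeta (2 : ℕ) ∈ L) (hz3 : riemannZeta (3 : ℕ) ∈ L) (h : ∀ i, v5 x i ∈ L) (i : Fin 5) : s5 x i ∈ L := by
  have h0 : PT 2 x ∈ L := h 0
  have h1 : PT 3 x ^ 2 / PT 2 x ^ 3 ∈ L := h 1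
  have h2 : PM 2 2 x / PT 2 x ^ 2 ∈ L := h 2
  have h3 : PM 2 3 x / (PT 2 x * PT 3 x) ∈ L := h 3
  have h4 : PM 3 3 x / PT 3 x ^ 2 ∈ L := h 4
  have hT : PT 3 x ∈ L := by
    refine hroot _ ?_
    have := L.mul_mem h1 (L.pow_mem h0 3)
    rwa [div_mul_cancel₀ _ (pow_ne_zero _ hT2)] at this
  have hP22 : PM 2 2 x ∈ L := by
    have := L.mul_mem h2 (L.pow_mem h0 2)
    rwa [div_mul_cancel₀ _ (pow_ne_zero _ hT2)] at this
  have hP23 : PM 2 3 x ∈ L := by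
    have := L.mul_mem h3 (L.mul_mem h0 hT)
    rwa [div_mul_cancel₀ _ (mul_ne_zero hT2 hT3)] at this
  have hP33 : PM 3 3 x ∈ L := by
    have := L.mul_mem h4 (L.pow_mem hT 2)
    rwa [div_mul_cancel₀ _ (pow_ne_zero _ hT3)] at this
  have hS2 : PS 2 x ∈ L := by
    have : PS 2 x = riemannZeta (2 : ℕ) - PT 2 x := by rw [zeta_split le_rfl x]; ring
    rw [this]; exact L.sub_mem hz2 h0
  have hS3 : PS 3 x ∈ L := by
    have : PS 3 x = riemannZeta (3 : ℕ) - PT 3 x := by rw [zeta_split (by norm_num) x]; ring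
    rw [this]; exact L.sub_mem hz3 hT
  have key : ∀ k l : ℕ, 2 ≤ k → 2 ≤ l → riemannZeta k ∈ L → riemannZeta l ∈ L → PS k x ∈ L → PS l x ∈ L → PM k l x ∈ L →
      PW k l x ∈ L := by
    intro k l hk hl a1 a2 a3 a4 a5
    have : PW k l x = PM k l x - riemannZeta k * riemannZeta l + riemannZeta k * PS l x + riemannZeta l * PS k x := by
      rw [PM_eq hk hl x]; ring
    rw [this]
    exact L.add_mem (L.add_mem (L.sub_mem a5 (L.mul_mem a1 a2)) (L.mul_mem a1 a4)) (L.mul_mem a2 a3)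
  fin_cases i
  · exact hS2
  · exact hS3
  · exact key 2 2 le_rfl le_rfl hz2 hz2 hS2 hS2 hP22
  · exact key 2 3 le_rfl (by norm_num) hz2 hz3 hS2 hS3 hP23
  · exact key 3 3 (by norm_num) (by norm_num) hz3 hz3 hS3 hS3 hP33

/-- the two indices -/
def M23 : Set ℕ := {2, 3}

theorem m23 : ∀ k ∈ M23, 2 ≤ k := by
  intro k hk
  rcases hk with h | h
  · rw [h]
  · rw [mem_singleton_iff] at h; rw [h]; norm_num

/-- the indices of the five numbers -/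
noncomputable def e5 : Fin 5 → Ix M23 := ![Sum.inl ⟨2, Or.inl rfl⟩, Sum.inl ⟨3, Or.inr rfl⟩,
  Sum.inr ⟨(2, 2), Or.inl rfl, le_rfl, Or.inl rfl⟩, Sum.inr ⟨(2, 3), Or.inl rfl, by norm_num, Or.inr rfl⟩,
  Sum.inr ⟨(3, 3), Or.inr rfl, le_rfl, Or.inr rfl⟩]

theorem e5_inj : Function.Injective e5 := by
  intro i j h
  fin_cases i <;> fin_cases j <;> first | rfl | (exfalso; revert h; simp [e5, Subtype.ext_iff])

theorem fas_e5 (x : ℂ) (i : Fin 5) : fas M23 x (e5 i) = s5 x i := by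
  fin_cases i <;> rfl

section

variable {X : Set ℂ}

theorem ai_s5 (hX : ∀ x ∈ X, IsAlgebraic ℚ x ∧ ∀ y ∈ X, x + y ≠ 0) :
    AlgebraicIndependent KK (fun q : X × Fin 5 => s5 q.1 q.2) := by
  have h := (ai_fas hX m23).comp (fun q : X × Fin 5 => ((q.1, e5 q.2) : X × Ix M23)) (by
    rintro ⟨x, i⟩ ⟨y, j⟩ h
    obtain ⟨h1, h2⟩ := (Prod.mk.injEq _ _ _ _).mp h
    exact Prod.ext h1 (e5_inj h2))
  have e : ((fun q : X × Ix M23 => fas M23 q.1 q.2) ∘ fun q : X × Fin 5 => ((q.1, e5 q.2) : X × Ix M23)) =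
      fun q : X × Fin 5 => s5 q.1 q.2 := by
    funext q
    exact fas_e5 _ _
  rw [e] at h
  exact h

/-- the names -/
abbrev Nm5 (X : Set ℂ) : Type := {q : ℂ × Fin 5 // q.1 ∈ X ∧ PT 2 q.1 ≠ 0 ∧ PT 3 q.1 ≠ 0}

/-- the values -/
noncomputable def tn5 (q : Nm5 X) : ℂ := v5 q.1.1 q.1.2

noncomputable def sn5 (q : Nm5 X) : ℂ := s5 q.1.1 q.1.2

theorem ai_sn5 (hX : ∀ x ∈ X, IsAlgebraic ℚ x ∧ ∀ y ∈ X, x + y ≠ 0) : AlgebraicIndependent KK (sn5 (X := X)) := by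
  refine (ai_s5 hX).comp (fun q : Nm5 X => (⟨q.1.1, q.2.1⟩, q.1.2)) ?_
  intro p q h
  obtain ⟨h1, h2⟩ := (Prod.mk.injEq _ _ _ _).mp h
  exact Subtype.ext (Prod.ext (congrArg (fun z => z.1) h1) h2)

theorem tri5 {Y : Set ℂ} (hz2 : riemannZeta (2 : ℕ) ∈ clf KK Y) (hz3 : riemannZeta (3 : ℕ) ∈ clf KK Y) (i : Nm5 X) :
    ∃ D : Finset (Nm5 X), i ∈ D ∧ ∀ j ∈ D, sn5 j ∈ clf KK (Y ∪ tn5 '' (D : Set (Nm5 X))) := by
  classical
  obtain ⟨⟨x, b⟩, hx, h2, h3⟩ := i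
  let f : Fin 5 → Nm5 X := fun c => ⟨(x, c), hx, h2, h3⟩
  refine ⟨Finset.univ.image f, Finset.mem_image.2 ⟨b, Finset.mem_univ _, rfl⟩, ?_⟩
  intro j hj
  obtain ⟨c, -, rfl⟩ := Finset.mem_image.1 hj
  set S : Set ℂ := Y ∪ tn5 '' ((Finset.univ.image f : Finset (Nm5 X)) : Set (Nm5 X)) with hS
  have hsub : Y ⊆ S := subset_union_left
  show s5 x c ∈ _
  refine s5_mem (x := x) h2 h3 (fun z hz' => clf_pow two_ne_zero hz') (clf_mono hsub hz2) (clf_mono hsub hz3) (fun i => ?_) c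
  exact subset_clf _ (Or.inr ⟨f i, Finset.mem_coe.2 (Finset.mem_image.2 ⟨i, Finset.mem_univ _, rfl⟩), rfl⟩)

variable {r : ℕ} {y : Fin r → ℂ}

theorem count5 (hX : ∀ x ∈ X, IsAlgebraic ℚ x ∧ ∀ y ∈ X, x + y ≠ 0) (hz2 : riemannZeta (2 : ℕ) ∈ clf KK (range y))
    (hz3 : riemannZeta (3 : ℕ) ∈ clf KK (range y)) :
    {n : Fin r ⊕ Nm5 X | Sum.elim (fun j => IsAlgebraic KK (y j)) (fun i => IsAlgebraic KK (tn5 i)) n}.encard ≤ (r : ℕ∞) := by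
  have h := cnt (y := y) (ai_sn5 hX) (tri5 hz2 hz3)
  rwa [Fintype.card_fin] at h

theorem trdeg5 (hX : ∀ x ∈ X, IsAlgebraic ℚ x ∧ ∀ y ∈ X, x + y ≠ 0) (hz2 : riemannZeta (2 : ℕ) ∈ clf KK (range y))
    (hz3 : riemannZeta (3 : ℕ) ∈ clf KK (range y)) (A : Finset (Nm5 X)) :
    (A.card : Cardinal) ≤ Algebra.trdeg KK (IntermediateField.adjoin KK (range y ∪ tn5 '' (A : Set (Nm5 X)))) :=
  trdeg_of_eRk (rk_ge (ai_sn5 hX) (tri5 hz2 hz3) A)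

/-- the exceptional points -/
theorem exc5 (hX : ∀ x ∈ X, IsAlgebraic ℚ x ∧ ∀ y ∈ X, x + y ≠ 0) (hz2 : riemannZeta (2 : ℕ) ∈ clf KK (range y))
    (hz3 : riemannZeta (3 : ℕ) ∈ clf KK (range y)) :
    {x | x ∈ X ∧ ¬ AlgebraicIndependent (IntermediateField.adjoin KK (range y)) (v5 x)}.encard ≤ (r : ℕ∞) := by
  have hz : ∀ k ∈ M23, riemannZeta k ∈ clf KK (range y) := by
    intro k hk
    rcases hk with h | h
    · rw [h]; exact hz2
    · rw [mem_singleton_iff] at h; rw [h]; exact hz3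
  refine le_trans (encard_le_encard ?_) (exc_fam hX m23 hz)
  rintro x ⟨hx, hx'⟩
  refine ⟨hx, fun h => hx' ?_⟩
  set L := IntermediateField.adjoin KK (range y)
  have h2 : PT 2 x ≠ 0 := h.ne_zero (Sum.inl ⟨2, Or.inl rfl⟩)
  have h3 : PT 3 x ≠ 0 := h.ne_zero (Sum.inl ⟨3, Or.inr rfl⟩)
  have h0 := h.comp e5 e5_inj
  refine ai_range h0 fun i => ?_
  have hv : ∀ i, v5 x i ∈ clf L (range (v5 x)) := fun i => subset_clf _ ⟨i, rfl⟩
  have k0 : PT 2 x ∈ clf L (range (v5 x)) := hv 0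
  have k1 : PT 3 x ∈ clf L (range (v5 x)) := by
    refine clf_pow (n := 2) two_ne_zero ?_
    have := (clf L (range (v5 x))).mul_mem (hv 1) ((clf L (range (v5 x))).pow_mem k0 3)
    have e : v5 x 1 * PT 2 x ^ 3 = PT 3 x ^ 2 := by
      show PT 3 x ^ 2 / PT 2 x ^ 3 * PT 2 x ^ 3 = _
      rw [div_mul_cancel₀ _ (pow_ne_zero _ h2)]
    rwa [e] at this
  fin_cases i
  · exact k0
  · exact k1
  · have := (clf L (range (v5 x))).mul_mem (hv 2) ((clf L (range (v5 x))).pow_mem k0 2)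
    have e : v5 x 2 * PT 2 x ^ 2 = PM 2 2 x := by
      show PM 2 2 x / PT 2 x ^ 2 * PT 2 x ^ 2 = _
      rw [div_mul_cancel₀ _ (pow_ne_zero _ h2)]
    rw [e] at this
    exact this
  · have := (clf L (range (v5 x))).mul_mem (hv 3) ((clf L (range (v5 x))).mul_mem k0 k1)
    have e : v5 x 3 * (PT 2 x * PT 3 x) = PM 2 3 x := by
      show PM 2 3 x / (PT 2 x * PT 3 x) * (PT 2 x * PT 3 x) = _
      rw [div_mul_cancel₀ _ (mul_ne_zero h2 h3)]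
    rw [e] at this
    exact this
  · have := (clf L (range (v5 x))).mul_mem (hv 4) ((clf L (range (v5 x))).pow_mem k1 2)
    have e : v5 x 4 * PT 3 x ^ 2 = PM 3 3 x := by
      show PM 3 3 x / PT 3 x ^ 2 * PT 3 x ^ 2 = _
      rw [div_mul_cancel₀ _ (pow_ne_zero _ h3)]
    rw [e] at this
    exact this

end

end Pool.Agent.H18.Pr
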